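import Mathlib
import Pool.Agent.W245.PB.Tup
import Pool.Agent.W245.PB.PLog

/-!
# `p`-adic Schanuel conjecture: the logarithms of almost all tuples of integers

For all `k`, `D`, `N` and `ε > 0` there is `x₀` such that for every prime `p` and every `x ≥ x₀`
the following holds: if `W` is a `ℚ̄`-subspace of the algebraic closure of `ℚ_p` of dimension at
most `N`, then for all but `ε x ^ k` of the `k`-tuples of integers in `[1, x]` the `p`-adic
logarithms `log_p a_1, …, log_p a_k` satisfy no nontrivial polynomial relation with coefficients in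
`W` and of degree at most `D` in each variable.

The proof contains a complete proof of Brumer's theorem, the `p`-adic version of Baker's theorem
(`Pool.Agent.W245.PB.BakerThmP`).
-/

namespace Pool.Agent.Results.MP_c50dba_nt.AlmostAllTuples

open Module

/-- `L` is the Iwasawa `p`-adic logarithm on the algebraic closure of `ℚ_p`. -/
def IsIwasawaLog (p : ℕ) [Fact p.Prime] (L : PadicAlgCl p → PadicAlgCl p) : Prop :=
  (∀ x y : PadicAlgCl p, x ≠ 0 → y ≠ 0 → L (x * y) = L x + L y) ∧
  L ((p : ℕ) : PadicAlgCl p) = 0 ∧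
  ∀ z : PadicAlgCl p, ‖z‖ < 1 →
    HasSum (fun n : ℕ => (-1 : PadicAlgCl p) ^ n * z ^ (n + 1) / ((n : PadicAlgCl p) + 1))
      (L (1 + z))

open Classical in
/-- **Main result.** -/
theorem result (k D N : ℕ) (ε : ℝ) (hε : 0 < ε) :
    ∃ x₀ : ℕ, ∀ x ≥ x₀, ∀ (p : ℕ) [Fact p.Prime] (L : PadicAlgCl p → PadicAlgCl p),
      IsIwasawaLog p L → ∀ W : Submodule (algebraicClosure ℚ (PadicAlgCl p)) (PadicAlgCl p),
      Module.Finite (algebraicClosure ℚ (PadicAlgCl p)) W →
      finrank (algebraicClosure ℚ (PadicAlgCl p)) W ≤ N →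
      (((Fintype.piFinset fun _ : Fin k => Finset.Icc 1 x).filter fun a =>
        ¬ ∀ Q : MvPolynomial (Fin k) (PadicAlgCl p), (∀ i, Q.degreeOf i ≤ D) →
          (∀ s, Q.coeff s ∈ W) → MvPolynomial.eval (fun i => L (a i : PadicAlgCl p)) Q = 0 →
            Q = 0).card : ℝ) ≤ ε * (x : ℝ) ^ k := by
  obtain ⟨x₀, hx₀⟩ := Pool.Agent.W245.PB.density_tuples k N D ε hε
  refine ⟨x₀, fun x hx p _ L hL W hWf hWN => ?_⟩
  have hL' : Pool.Agent.W245.PB.IsIwasawaLog p L := ⟨hL.1, hL.2.1, hL.2.2⟩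
  apply hx₀ x hx (Pool.Agent.W245.PB.QbarP p) (PadicAlgCl p) (fun n : ℕ => L (n : PadicAlgCl p))
    hL'.logLike W hWf hWN
  · intro a ha
    have h1 := (Finset.mem_filter.1 ha).1
    exact h1
  · intro a ha hno
    apply (Finset.mem_filter.1 ha).2
    intro Q hdeg hW h0
    exact hno.poly Q hdeg hW h0

end Pool.Agent.Results.MP_c50dba_nt.AlmostAllTuples
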