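import Pool.Agent.W254.Ab.Curve
import Pool.Agent.W254.PA.App

/-!
# `p`-adic logarithms in a field of transcendence degree one

Let `V` be the space of linear forms, with algebraic coefficients, in `1` and `p`-adic logarithms of
algebraic numbers.

(A) For every nonzero finite dimensional subspace `W` of `V`, every finite dimensional space `X` over
the algebraic numbers and every `s ≤ dim X` one has `dim (X W) ≥ dim X + s (dim W - s)`.

(B) Let `F` be a field of elements of the algebraic closure of `ℚ_p`, containing the algebraic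
numbers, let `x_1, ..., x_N` be elements of `F` which are such linear forms (for example `p`-adic
logarithms linearly independent over `ℚ`), linearly independent together with `1`, and let `F` be
finite over `Qbar (x_i)` for every `i`.  Then `∑ [F : Qbar (x_i)] ≥ ⌊(N + 1)^2 / 4⌋`.

The proof combines the `p`-adic hyperplane theorem (`Pool.Agent.W254.PA`) with the evaluation argument
and the function field arguments of helper256 (`Pool.Agent.W256`).
-/

set_option autoImplicit false

namespace Pool.Agent.Results.MP_c50dba_nt.FieldDegrees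

open Module IntermediateField

/-- The space of all linear combinations, with algebraic coefficients, of `1` and of `p`-adic
logarithms of nonzero algebraic numbers. -/
noncomputable def LinForms (p : ℕ) [Fact p.Prime] (L : PadicAlgCl p → PadicAlgCl p) :
    Submodule (algebraicClosure ℚ (PadicAlgCl p)) (PadicAlgCl p) :=
  Submodule.span (algebraicClosure ℚ (PadicAlgCl p))
    ({1} ∪ {z | ∃ α : PadicAlgCl p, α ≠ 0 ∧ IsAlgebraic ℚ α ∧ z = L α})

/-- **Main result.** -/
theorem result (p : ℕ) [Fact p.Prime] (L : PadicAlgCl p → PadicAlgCl p)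
    (hmul : ∀ x y : PadicAlgCl p, x ≠ 0 → y ≠ 0 → L (x * y) = L x + L y)
    (hprime : L ((p : ℕ) : PadicAlgCl p) = 0)
    (hser : ∀ z : PadicAlgCl p, ‖z‖ < 1 →
      HasSum (fun n : ℕ => (-1 : PadicAlgCl p) ^ n * z ^ (n + 1) / ((n : PadicAlgCl p) + 1))
        (L (1 + z))) :
    (∀ (W X : Submodule (algebraicClosure ℚ (PadicAlgCl p)) (PadicAlgCl p))
      [FiniteDimensional (algebraicClosure ℚ (PadicAlgCl p)) W]
      [FiniteDimensional (algebraicClosure ℚ (PadicAlgCl p)) X],
      W ≤ LinForms p L → W ≠ ⊥ → ∀ s ≤ finrank (algebraicClosure ℚ (PadicAlgCl p)) X,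
      finrank (algebraicClosure ℚ (PadicAlgCl p)) X +
          s * finrank (algebraicClosure ℚ (PadicAlgCl p)) W ≤
        finrank (algebraicClosure ℚ (PadicAlgCl p)) ↥(X * W) + s * s) ∧
    (∀ (F : IntermediateField (algebraicClosure ℚ (PadicAlgCl p)) (PadicAlgCl p)) (N : ℕ)
      (x : Fin N → F), (∀ i, (x i : PadicAlgCl p) ∈ LinForms p L) →
      LinearIndependent (algebraicClosure ℚ (PadicAlgCl p)) (Fin.cons 1 x : Fin (N + 1) → F) →
      (∀ i, FiniteDimensional (adjoin (algebraicClosure ℚ (PadicAlgCl p)) {x i}) F) →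
      (N + 1) ^ 2 / 4 ≤
        ∑ i, finrank (adjoin (algebraicClosure ℚ (PadicAlgCl p)) {x i}) F) :=
  ⟨fun W X _ _ hW hW0 s hs =>
      Pool.Agent.W254.Ab.growth (Pool.Agent.W254.PA.hyp_padic ⟨hmul, hprime, hser⟩) W X hW hW0 s hs,
    fun F N x hx hli hfin =>
      Pool.Agent.W254.Ab.degrees_of_forms (Pool.Agent.W254.PA.hyp_padic ⟨hmul, hprime, hser⟩)
        Pool.Agent.W254.PA.one_memP F N x hx hli hfin⟩

end Pool.Agent.Results.MP_c50dba_nt.FieldDegrees
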