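import Mathlib
import Pool.Agent.W245.PB.RealQ

/-!
# `p`-adic Schanuel conjecture: block sums of `p`-adic logarithms of algebraic numbers

Let `N` and `D_0, D_1, …` be arbitrary integers.  There are bounds `0 = R_0 < R_1 < ⋯`, depending
only on these data, with the following property.  Let `p` be a prime, `w_0, w_1, …` any
`ℚ`-linearly independent `p`-adic logarithms of algebraic numbers, and `W` a subspace of the
algebraic closure of `ℚ_p` of dimension at most `N` over the field of algebraic numbers.  Then there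
are sets `S_i` of integers in `[R_i, R_{i+1})` such that the sums `l_i = ∑_{j ∈ S_i} w_j` satisfy no
nontrivial polynomial relation `Q(l_0, …, l_{k-1}) = 0` of degree at most `D_i` in the `i`-th
variable, `i < k`, with all coefficients in `W`.

The proof contains a complete proof of Brumer's theorem, the `p`-adic version of Baker's theorem
(`Pool.Agent.W245.PB.BakerThmP`).
-/

namespace Pool.Agent.Results.MP_c50dba_nt.InfiniteSequences

open Module

/-- `L` is the Iwasawa `p`-adic logarithm on the algebraic closure of `ℚ_p`. -/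
def IsIwasawaLog (p : ℕ) [Fact p.Prime] (L : PadicAlgCl p → PadicAlgCl p) : Prop :=
  (∀ x y : PadicAlgCl p, x ≠ 0 → y ≠ 0 → L (x * y) = L x + L y) ∧
  L ((p : ℕ) : PadicAlgCl p) = 0 ∧
  ∀ z : PadicAlgCl p, ‖z‖ < 1 →
    HasSum (fun n : ℕ => (-1 : PadicAlgCl p) ^ n * z ^ (n + 1) / ((n : PadicAlgCl p) + 1))
      (L (1 + z))

/-- **Main result.** -/
theorem result (N : ℕ) (D : ℕ → ℕ) : ∃ R : ℕ → ℕ, StrictMono R ∧ R 0 = 0 ∧
    ∀ (p : ℕ) [Fact p.Prime] (L : PadicAlgCl p → PadicAlgCl p), IsIwasawaLog p L →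
    ∀ w : ℕ → PadicAlgCl p,
    (∀ i, ∃ α : PadicAlgCl p, α ≠ 0 ∧ IsAlgebraic ℚ α ∧ w i = L α) → LinearIndependent ℚ w →
    ∀ W : Submodule (algebraicClosure ℚ (PadicAlgCl p)) (PadicAlgCl p),
    Module.Finite (algebraicClosure ℚ (PadicAlgCl p)) W →
    finrank (algebraicClosure ℚ (PadicAlgCl p)) W ≤ N →
    ∃ S : ℕ → Finset ℕ, (∀ i, S i ⊆ Finset.Ico (R i) (R (i + 1))) ∧
      ∀ (k : ℕ) (Q : MvPolynomial (Fin k) (PadicAlgCl p)), (∀ i, Q.degreeOf i ≤ D i) →
        (∀ s, Q.coeff s ∈ W) →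
        MvPolynomial.eval (fun i : Fin k => ∑ j ∈ S i, w j) Q = 0 → Q = 0 := by
  obtain ⟨R, hR, hR0, h⟩ := Pool.Agent.W245.PB.block_noRel N D
  refine ⟨R, hR, hR0, fun p _ L hL w hw hli W hWf hWN => ?_⟩
  have hL' : Pool.Agent.W245.PB.IsIwasawaLog p L := ⟨hL.1, hL.2.1, hL.2.2⟩
  exact h (Pool.Agent.W245.PB.QbarP p) (PadicAlgCl p) w
    (Pool.Agent.W245.PB.brumer_seq hL' w hw hli) W hWf hWN

end Pool.Agent.Results.MP_c50dba_nt.InfiniteSequences
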