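import Pool.Agent.W254.PA.App

/-!
# Algebraic relations between `p`-adic logarithms which are linear in all but few of them

Let `L` be the `p`-adic logarithm and `L (α_i)`, `i ∈ ι`, any family (finite or infinite) of values at
algebraic numbers, linearly independent over `ℚ`.

(a) Let `t_1, ..., t_n` be arbitrary elements of the algebraic closure of `ℚ_p` (for example other
logarithms), `D ≥ 0`. There is a set `E` of at most `(4D)^n - 2^n` indices such that in every relation
`P₀(t) + ∑ P_i(t) L (α_i) = 0`, where the `P_i` are polynomials with algebraic coefficients of degree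
at most `D` in each variable and `P_i = 0` for `i ∈ E`, all the coefficients `P_i(t)` vanish.
For `D = 0` this is Brumer's theorem.

(b) If one logarithm is fixed, all but at most `max(1, 4D - 4)` of the others have the property that
no nonzero polynomial with algebraic coefficients, of degree at most `D` in the first one and of total
degree at most one in the others vanishes at them.

Proof.  The `p`-adic linear subgroup theorem (in a parametric form) is proved by the method of
interpolation determinants, with the zero estimate of the starting files; it implies the hyperplane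
theorem: if `x_1, ..., x_d` are linearly independent over the algebraic numbers then the space of
relations `∑ x_u a_u = 0` with linear forms `a_u` in `1` and logarithms has dimension at most
`d (d - 1)`. If the relations with coefficients in the space `X(D + 1)` of values at `t` of
polynomials of degree at most `D` have rank `r`, their products with the elements of `X(D)` give
`r dim X(D) ≤ dim X(2D) (dim X(2D) - 1)`, and `dim X(2D) ≤ 2^n dim X(D)`.
-/

set_option autoImplicit false

namespace Pool.Agent.Results.MP_c50dba_nt.LinearInLogs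

open MvPolynomial

/-- **Main result.** -/
theorem result (p : ℕ) [Fact p.Prime] (L : PadicAlgCl p → PadicAlgCl p)
    (hmul : ∀ x y : PadicAlgCl p, x ≠ 0 → y ≠ 0 → L (x * y) = L x + L y)
    (hprime : L ((p : ℕ) : PadicAlgCl p) = 0)
    (hser : ∀ z : PadicAlgCl p, ‖z‖ < 1 →
      HasSum (fun n : ℕ => (-1 : PadicAlgCl p) ^ n * z ^ (n + 1) / ((n : PadicAlgCl p) + 1))
        (L (1 + z)))
    (D : ℕ) (ι : Type) :
    (∀ (n : ℕ) (t : Fin n → PadicAlgCl p) (α : ι → PadicAlgCl p), (∀ i, α i ≠ 0) →
      (∀ i, IsAlgebraic ℚ (α i)) → LinearIndependent ℚ (fun i => L (α i)) →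
      ∃ E : Finset ι, E.card ≤ (4 * D) ^ n - 2 ^ n ∧
        ∀ (P₀ : MvPolynomial (Fin n) (algebraicClosure ℚ (PadicAlgCl p)))
          (P : ι →₀ MvPolynomial (Fin n) (algebraicClosure ℚ (PadicAlgCl p))),
          (∀ m ∈ P₀.support, ∀ i, m i ≤ D) → (∀ s, ∀ m ∈ (P s).support, ∀ i, m i ≤ D) →
          (∀ s ∈ E, aeval t (P s) = 0) →
          aeval t P₀ + P.sum (fun s R => aeval t R * L (α s)) = 0 →
          aeval t P₀ = 0 ∧ ∀ s, aeval t (P s) = 0) ∧
    (1 ≤ D → ∀ α : Option ι → PadicAlgCl p, (∀ i, α i ≠ 0) →
      (∀ i, IsAlgebraic ℚ (α i)) → LinearIndependent ℚ (fun o : Option ι => L (α o)) →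
      ∃ E : Finset ι, E.card ≤ max 1 (4 * D - 4) ∧
        ∀ P : MvPolynomial (Option ι) (algebraicClosure ℚ (PadicAlgCl p)),
          (∀ m ∈ P.support, m none ≤ D ∧ ((∀ s, m (some s) = 0) ∨
            ∃ s, s ∉ E ∧ m (some s) = 1 ∧ ∀ s', s' ≠ s → m (some s') = 0)) →
          aeval (fun o : Option ι => L (α o)) P = 0 → P = 0) :=
  ⟨fun _ t α h0 h1 h2 =>
      Pool.Agent.W254.PA.gen_logsP ⟨hmul, hprime, hser⟩ t D α h0 h1 h2,
    fun hD α h0 h1 h2 =>
      Pool.Agent.W254.PA.fixed_logP ⟨hmul, hprime, hser⟩ D hD α h0 h1 h2⟩

end Pool.Agent.Results.MP_c50dba_nt.LinearInLogs
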